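import Pool.Agent.HB.Defs

/-!
# HB.S.Code: the coding functions

PROOFS.  `Encodable.encode (n :: σ) = succ (pair n (encode σ)) > encode σ` (`Encodable.encode_list_cons`, `Nat.right_le_pair`);
`Encodable.encode_injective`; parity for `code_ne_lc`.
-/

namespace Pool.Agent.HB

theorem code_inj (j : ℕ) : Function.Injective (code j) := by
  intro a b h
  unfold code at h
  exact Encodable.encode_injective (by omega)

theorem code_lt_cons (j n : ℕ) (σ : List ℕ) : code j σ < code j (n :: σ) := by
  unfold code
  rw [Encodable.encode_list_cons]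
  have := Nat.right_le_pair (Encodable.encode n) (Encodable.encode σ)
  omega

theorem lc_lt_code (j : ℕ) (σ : List ℕ) : lc j < code j σ := by
  unfold lc code
  omega

theorem code_ne_lc (i j : ℕ) (σ : List ℕ) : code j σ ≠ lc i := by
  unfold lc code
  omega

theorem code_pos (j : ℕ) (σ : List ℕ) : ∃ c, code j σ = c + 1 :=
  ⟨2 * (j + Encodable.encode σ) + 2, rfl⟩

end Pool.Agent.HB
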