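import Pool.Agent.HB.S.Cont

/-!
# HB.S.Nrm: the boundary norms

PROOFS.  `‖τ‖ = 1` throughout.  At most one `j` has `psi p j τ ≠ 0` (`arc_of_psi`, `arc_unique`), so the `tsum` has at most one
nonzero term (`tsum_eq_single`, or `tsum` of zeros).
* `nrm_arc`: on the arc `j ≥ i0`: `nrm³ = L³ + psi S3`.  `nrm_off`: if no arc `j ≥ i0` contains `τ`: `nrm = L`.
* Fam: nonneg; homogeneity (`S3_smul`); triangle inequality: `(L³ + psi S3)^{1/3}` is the `ℓ₃`-norm of the two seminorms `L` and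
  `(psi S3)^{1/3}` (`S3_tri`, Minkowski); `coord_le_L`; `res`: `LG_res_le`, `S3_res`; continuity: for a curve with coordinates
  `< n`, `S3 j = 0` for `j ≥ n` (`S3_zero`) so `tsum = ∑_{j<n}` (`tsum_eq_sum`), continuous by `S3_cont`, `LG_cont`; then the cube
  root is continuous.
* `nrm_le`: `S3 ≤ 8 √m Lc³ ≤ 8 √m L³`, `1 + 8√m ≤ 9 √m`.
* `nrm_u3`: `LG_disj` for `L` (successive ⟹ disjoint supports), `S3_u3`, `psi ≤ 1`: `L(∑)³ + psi S3(∑) ≤ ∑ L³ + psi (18 ∑ S3 + 72 ∑ L³)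
  ≤ 73 ∑ (L³ + psi S3)`.
* `nrm_mono`: fewer operations.
-/

open Finset

namespace Pool.Agent.HB

variable {p : Par} {H : ℕ → Pol} {i0 j : ℕ} {τ : ℂ}

theorem Lf_nonneg' (p : Par) (x : CV) : 0 ≤ Lf p x := LG_nonneg (good_gam p) x

/-- cube root of a nonnegative number -/
theorem cbrt_cube {a : ℝ} (ha : 0 ≤ a) : (a ^ ((1 : ℝ) / 3)) ^ 3 = a := by
  rw [← Real.rpow_natCast, ← Real.rpow_mul ha]
  norm_num

theorem cube_cbrt {a : ℝ} (ha : 0 ≤ a) : (a ^ 3) ^ ((1 : ℝ) / 3) = a := by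
  rw [← Real.rpow_natCast, ← Real.rpow_mul ha]
  norm_num

theorem nrm3_arc (hτ : Arc p j τ) (hj : i0 ≤ j) (x : CV) :
    nrm3 p H i0 τ x = Lf p x ^ 3 + psi p j τ * S3 p H j τ x := by
  unfold nrm3
  rw [tsum_eq_single j]
  · rw [if_pos hj]
  · intro j' hj'
    split_ifs with h
    · by_cases hz : psi p j' τ = 0
      · rw [hz, zero_mul]
      · exact absurd (arc_unique p (arc_of_psi p hτ.1 hz) hτ) hj'
    · rfl

theorem nrm3_off (hτ : ‖τ‖ = 1) (h : ∀ j, i0 ≤ j → ¬ Arc p j τ) (x : CV) :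
    nrm3 p H i0 τ x = Lf p x ^ 3 := by
  unfold nrm3
  have : ∀ j : ℕ, (if i0 ≤ j then psi p j τ * S3 p H j τ x else 0) = 0 := by
    intro j'
    split_ifs with hj
    · by_cases hz : psi p j' τ = 0
      · rw [hz, zero_mul]
      · exact absurd (arc_of_psi p hτ hz) (h j' hj)
    · rfl
  simp only [this, tsum_zero, add_zero]

theorem nrm3_cases (_hτ : ‖τ‖ = 1) (i0 : ℕ) :
    (∃ j, i0 ≤ j ∧ Arc p j τ) ∨ ∀ j, i0 ≤ j → ¬ Arc p j τ := by
  by_cases h : ∃ j, i0 ≤ j ∧ Arc p j τ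
  · exact Or.inl h
  · right
    intro j hj ha
    exact h ⟨j, hj, ha⟩

theorem psiS3_nonneg (hτ : Arc p j τ) (x : CV) : 0 ≤ psi p j τ * S3 p H j τ x :=
  mul_nonneg (psi_nonneg p j τ) (S3_nonneg hτ x)

theorem nrm3_nonneg (hτ : ‖τ‖ = 1) (x : CV) : 0 ≤ nrm3 p H i0 τ x := by
  rcases nrm3_cases (p := p) hτ i0 with ⟨j, hj, ha⟩ | h
  · rw [nrm3_arc ha hj]
    have := Lf_nonneg' p x
    have := psiS3_nonneg (H := H) ha x
    positivity
  · rw [nrm3_off hτ h]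
    have := Lf_nonneg' p x
    positivity

theorem nrm_cube (hτ : ‖τ‖ = 1) (x : CV) : nrm p H i0 τ x ^ 3 = nrm3 p H i0 τ x := by
  unfold nrm
  exact cbrt_cube (nrm3_nonneg hτ x)

theorem nrm_nonneg' (hτ : ‖τ‖ = 1) (x : CV) : 0 ≤ nrm p H i0 τ x := by
  unfold nrm
  exact Real.rpow_nonneg (nrm3_nonneg hτ x) _

theorem nrm_arc (hτ : Arc p j τ) (hj : i0 ≤ j) (x : CV) :
    nrm p H i0 τ x ^ 3 = Lf p x ^ 3 + psi p j τ * S3 p H j τ x := by
  rw [nrm_cube hτ.1, nrm3_arc hτ hj]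

theorem nrm_off (hτ : ‖τ‖ = 1) (h : ∀ j, i0 ≤ j → ¬ Arc p j τ) (x : CV) :
    nrm p H i0 τ x = Lf p x := by
  unfold nrm
  rw [nrm3_off hτ h, cube_cbrt (Lf_nonneg' p x)]

theorem L_le_nrm (hτ : ‖τ‖ = 1) (x : CV) : Lf p x ≤ nrm p H i0 τ x := by
  rcases nrm3_cases (p := p) hτ i0 with ⟨j, hj, ha⟩ | h
  · have h3 := nrm_arc (H := H) ha hj x
    have h1 := psiS3_nonneg (H := H) ha x
    refine le_of_pow_le_pow_left₀ (n := 3) (by norm_num) (nrm_nonneg' hτ x) ?_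
    rw [h3]
    linarith
  · exact (nrm_off hτ h x).ge

theorem one_le_m (p : Par) (c : ℕ) : 1 ≤ √(p.m c) := by
  rw [Real.one_le_sqrt]
  unfold Par.m
  exact one_le_pow₀ (by norm_num)

theorem nrm_le (hτ : Arc p j τ) (x : CV) :
    nrm p H i0 τ x ^ 3 ≤ 9 * √(p.m (lc j)) * Lf p x ^ 3 := by
  have hm := one_le_m p (lc j)
  have hL := Lf_nonneg' p x
  have hL3 : 0 ≤ Lf p x ^ 3 := by positivity
  by_cases hj : i0 ≤ j
  · rw [nrm_arc hτ hj]
    have h1 := S3_bound (H := H) hτ x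
    have h2 : Lc p (lc j) x ^ 3 ≤ Lf p x ^ 3 :=
      pow_le_pow_left₀ (LG_nonneg (good_gamc p _) x) (Lc_le_L p (lc j) x) 3
    have h3 : psi p j τ * S3 p H j τ x ≤ 1 * S3 p H j τ x :=
      mul_le_mul_of_nonneg_right (psi_le_one p j τ) (S3_nonneg hτ x)
    have h4 : 8 * √(p.m (lc j)) * Lc p (lc j) x ^ 3 ≤ 8 * √(p.m (lc j)) * Lf p x ^ 3 :=
      mul_le_mul_of_nonneg_left h2 (by positivity)
    have h5 : Lf p x ^ 3 ≤ √(p.m (lc j)) * Lf p x ^ 3 := le_mul_of_one_le_left hL3 hm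
    linarith
  · rw [nrm_off hτ.1 (fun j' hj' ha => hj (arc_unique p ha hτ ▸ hj'))]
    have h5 : Lf p x ^ 3 ≤ √(p.m (lc j)) * Lf p x ^ 3 := le_mul_of_one_le_left hL3 hm
    nlinarith

theorem nrm_mono (hτ : ‖τ‖ = 1) {i1 : ℕ} (h : i0 ≤ i1) (x : CV) :
    nrm p H i1 τ x ≤ nrm p H i0 τ x := by
  rcases nrm3_cases (p := p) hτ i1 with ⟨j, hj, ha⟩ | h'
  · unfold nrm
    rw [nrm3_arc ha hj, nrm3_arc ha (h.trans hj)]
  · rw [nrm_off hτ h']
    exact L_le_nrm hτ x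

theorem Lf_u3 (p : Par) (n : ℕ) (x : ℕ → CV)
    (hx : ∀ k < n, ∀ l < n, k < l → Lt (x k) (x l)) :
    Lf p (∑ k ∈ range n, x k) ^ 3 ≤ ∑ k ∈ range n, Lf p (x k) ^ 3 := by
  apply LG_disj (good_gam p)
  have key : ∀ k < n, ∀ l < n, k < l → Disjoint (x k).support (x l).support := by
    intro k hk l hl hkl
    rw [Finset.disjoint_left]
    intro i hi hi'
    exact lt_irrefl _ (hx k hk l hl hkl i hi i hi')
  intro k hk l hl hkl
  rw [mem_range] at hk hl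
  rcases lt_or_gt_of_ne hkl with h | h
  · exact key k hk l hl h
  · exact (key l hl k hk h).symm

theorem nrm_u3 (hτ : ‖τ‖ = 1) (n : ℕ) (x : ℕ → CV)
    (hx : ∀ k < n, ∀ l < n, k < l → Lt (x k) (x l)) :
    nrm p H i0 τ (∑ k ∈ range n, x k) ^ 3 ≤ 73 * ∑ k ∈ range n, nrm p H i0 τ (x k) ^ 3 := by
  have hL := Lf_u3 p n x hx
  have hLn : 0 ≤ ∑ k ∈ range n, Lf p (x k) ^ 3 :=
    sum_nonneg fun k _ => pow_nonneg (Lf_nonneg' p (x k)) 3
  rcases nrm3_cases (p := p) hτ i0 with ⟨j, hj, ha⟩ | h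
  · rw [nrm_arc ha hj]
    simp only [nrm_arc ha hj]
    rw [sum_add_distrib, ← mul_sum]
    have h1 := S3_u3 (H := H) ha n x hx
    have hS : 0 ≤ ∑ k ∈ range n, S3 p H j τ (x k) := sum_nonneg fun k _ => S3_nonneg ha (x k)
    have hp0 := psi_nonneg p j τ
    have hp1 := psi_le_one p j τ
    have h2 := mul_le_mul_of_nonneg_left h1 hp0
    have h3 : psi p j τ * ∑ k ∈ range n, Lf p (x k) ^ 3 ≤ 1 * ∑ k ∈ range n, Lf p (x k) ^ 3 :=
      mul_le_mul_of_nonneg_right hp1 hLn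
    have h4 : 0 ≤ psi p j τ * ∑ k ∈ range n, S3 p H j τ (x k) := mul_nonneg hp0 hS
    nlinarith
  · simp only [nrm_off hτ h]
    linarith

/-- Minkowski's inequality for two terms, exponent 3 -/
theorem mink2 {a b c d : ℝ} (ha : 0 ≤ a) (hb : 0 ≤ b) (hc : 0 ≤ c) (hd : 0 ≤ d) :
    ((a + c) ^ 3 + (b + d) ^ 3) ^ ((1 : ℝ) / 3) ≤
      (a ^ 3 + b ^ 3) ^ ((1 : ℝ) / 3) + (c ^ 3 + d ^ 3) ^ ((1 : ℝ) / 3) := by
  have := Real.Lp_add_le_of_nonneg (s := (univ : Finset (Fin 2))) (f := ![a, b]) (g := ![c, d])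
    (p := 3) (by norm_num) (by intro i _; fin_cases i <;> simp [ha, hb])
    (by intro i _; fin_cases i <;> simp [hc, hd])
  simp only [Fin.sum_univ_two, Matrix.cons_val_zero, Matrix.cons_val_one] at this
  have e : ∀ u : ℝ, u ^ (3 : ℝ) = u ^ (3 : ℕ) := fun u => by
    rw [← Real.rpow_natCast]; norm_num
  simpa only [e] using this

theorem nrm_add (hτ : ‖τ‖ = 1) (x y : CV) :
    nrm p H i0 τ (x + y) ≤ nrm p H i0 τ x + nrm p H i0 τ y := by
  have hL := LG_add_le (good_gam p) x y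
  have hx := Lf_nonneg' p x
  have hy := Lf_nonneg' p y
  have hxy := Lf_nonneg' p (x + y)
  rcases nrm3_cases (p := p) hτ i0 with ⟨j, hj, ha⟩ | h
  · unfold nrm
    rw [nrm3_arc ha hj, nrm3_arc ha hj, nrm3_arc ha hj]
    have hp0 := psi_nonneg p j τ
    have hS := S3_tri (H := H) ha x y
    have hSx := S3_nonneg (H := H) ha x
    have hSy := S3_nonneg (H := H) ha y
    have hSxy := S3_nonneg (H := H) ha (x + y)
    set P := (psi p j τ) ^ ((1 : ℝ) / 3) with hP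
    have hPn : 0 ≤ P := Real.rpow_nonneg hp0 _
    have hP3 : P ^ 3 = psi p j τ := cbrt_cube hp0
    set sx := (S3 p H j τ x) ^ ((1 : ℝ) / 3) with hsx
    set sy := (S3 p H j τ y) ^ ((1 : ℝ) / 3) with hsy
    set sxy := (S3 p H j τ (x + y)) ^ ((1 : ℝ) / 3) with hsxy
    have hsxn : 0 ≤ sx := Real.rpow_nonneg hSx _
    have hsyn : 0 ≤ sy := Real.rpow_nonneg hSy _
    have hsxyn : 0 ≤ sxy := Real.rpow_nonneg hSxy _
    have ex : psi p j τ * S3 p H j τ x = (P * sx) ^ 3 := by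
      rw [mul_pow, hP3, hsx, cbrt_cube hSx]
    have ey : psi p j τ * S3 p H j τ y = (P * sy) ^ 3 := by
      rw [mul_pow, hP3, hsy, cbrt_cube hSy]
    have exy : psi p j τ * S3 p H j τ (x + y) = (P * sxy) ^ 3 := by
      rw [mul_pow, hP3, hsxy, cbrt_cube hSxy]
    rw [ex, ey, exy]
    refine le_trans ?_ (mink2 hx (mul_nonneg hPn hsxn) hy (mul_nonneg hPn hsyn))
    apply Real.rpow_le_rpow (by positivity) _ (by norm_num)
    apply add_le_add
    · exact pow_le_pow_left₀ hxy hL 3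
    · apply pow_le_pow_left₀ (mul_nonneg hPn hsxyn)
      rw [← mul_add]
      exact mul_le_mul_of_nonneg_left hS hPn
  · rw [nrm_off hτ h, nrm_off hτ h, nrm_off hτ h]
    exact hL

theorem nrm_smul (hτ : ‖τ‖ = 1) (a : ℂ) (x : CV) :
    nrm p H i0 τ (a • x) = ‖a‖ * nrm p H i0 τ x := by
  have hL : Lf p (a • x) = ‖a‖ * Lf p x := LG_smul (good_gam p) a x
  rcases nrm3_cases (p := p) hτ i0 with ⟨j, hj, ha⟩ | h
  · have e : nrm3 p H i0 τ (a • x) = ‖a‖ ^ 3 * nrm3 p H i0 τ x := by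
      rw [nrm3_arc ha hj, nrm3_arc ha hj, hL, S3_smul ha]
      ring
    unfold nrm
    rw [e, Real.mul_rpow (by positivity) (nrm3_nonneg hτ x), cube_cbrt (norm_nonneg a)]
  · rw [nrm_off hτ h, nrm_off hτ h, hL]

theorem nrm_res (hτ : ‖τ‖ = 1) (E : Set ℕ) (hE : E.OrdConnected) (x : CV) :
    nrm p H i0 τ (res E x) ≤ nrm p H i0 τ x := by
  have hL := LG_res_le (good_gam p) E x
  rcases nrm3_cases (p := p) hτ i0 with ⟨j, hj, ha⟩ | h
  · unfold nrm
    apply Real.rpow_le_rpow (nrm3_nonneg hτ _) _ (by norm_num)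
    rw [nrm3_arc ha hj, nrm3_arc ha hj]
    apply add_le_add
    · exact pow_le_pow_left₀ (Lf_nonneg' p _) hL 3
    · exact mul_le_mul_of_nonneg_left (S3_res ha E hE x) (psi_nonneg p j τ)
  · rw [nrm_off hτ h, nrm_off hτ h]
    exact hL

theorem nrm_cont (p : Par) (H : ℕ → Pol) (i0 : ℕ) (F : TC → CV) (hF : IsCur F) :
    Continuous fun t => nrm p H i0 (zz t) (F t) := by
  obtain ⟨n, hn⟩ := hF.1
  have e : ∀ t, nrm3 p H i0 (zz t) (F t) = Lf p (F t) ^ 3 +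
      ∑ j ∈ range n, if i0 ≤ j then psi p j (zz t) * S3 p H j (zz t) (F t) else 0 := by
    intro t
    unfold nrm3
    congr 1
    apply tsum_eq_sum
    intro j hj
    rw [mem_range, not_lt] at hj
    split_ifs with h
    · rw [S3_zero, mul_zero]
      intro i hi
      by_contra hlt
      rw [not_lt] at hlt
      exact (Finsupp.mem_support_iff.mp hi) (hn t i (hj.trans hlt))
    · rfl
  unfold nrm
  apply Continuous.rpow_const
  · simp only [e]
    apply Continuous.add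
    · exact (LG_cont (good_gam p) F n hn hF.2).pow 3
    · apply continuous_finsetSum
      intro j _
      split_ifs with h
      · exact S3_cont j F hF
      · exact continuous_const
  · intro t
    right
    norm_num

theorem fam_WW (p : Par) (H : ℕ → Pol) (i0 : ℕ) : Fam (WW p H i0) where
  nn := fun t x => nrm_nonneg' (norm_zz t) x
  smul := fun t a x => nrm_smul (norm_zz t) a x
  add := fun t x y => nrm_add (norm_zz t) x y
  coord := fun t x i => (coord_le_L p x i).trans (L_le_nrm (norm_zz t) x)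
  res := fun t x E hE => nrm_res (norm_zz t) E hE x
  cont := fun F hF => nrm_cont p H i0 F hF

end Pool.Agent.HB
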