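import Pool.Agent.HB.T.Par

/-!
# HB.S.Chi: arcs and cut-off functions

PROOFS.  `chi` is a max/min of affine functions.  `chi s ≠ 0` forces `2s-1 > 0` and `4-2s > 0`.
`dd (j+1) ≤ dd j / 8`: `N (2j+3) ≥ N (2j+1) + 1` (`par_N_mono`), so `dd (j+1) ≤ dd j / 2^10`.
Disjointness of arcs: for `i < j`: `2 dd j ≤ dd i / 4 < dd i / 2`.
`arc_small`: `‖1-τ‖ n^9 ≤ 2 · 2^{-10N} 2^{9N} = 2^{1-N} ≤ 1`, `N = N (2j+1)`, `n = n (2j+1)`.
`arc_inv`: `1/‖1-τ‖ ≤ 2/dd j`, and `≥ 1/(2 dd j)`.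
-/

open Finset

namespace Pool.Agent.HB

theorem chi_cont : Continuous chi := by
  unfold chi
  fun_prop

theorem chi_nonneg (s : ℝ) : 0 ≤ chi s := le_max_left _ _

theorem chi_le_one (s : ℝ) : chi s ≤ 1 := max_le zero_le_one (min_le_left _ _)

theorem chi_eq_one {s : ℝ} (h1 : 1 ≤ s) (h2 : s ≤ 3 / 2) : chi s = 1 := by
  unfold chi
  have h3 : (1 : ℝ) ≤ min (2 * s - 1) (4 - 2 * s) := le_min (by linarith) (by linarith)
  rw [min_eq_left h3, max_eq_right zero_le_one]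

theorem chi_ne {s : ℝ} (h : chi s ≠ 0) : 1 / 2 < s ∧ s < 2 := by
  constructor
  · by_contra hc
    apply h
    unfold chi
    apply max_eq_left
    exact (min_le_right _ _).trans ((min_le_left _ _).trans (by linarith [not_lt.1 hc]))
  · by_contra hc
    apply h
    unfold chi
    apply max_eq_left
    exact (min_le_right _ _).trans ((min_le_right _ _).trans (by linarith [not_lt.1 hc]))

variable (p : Par)

theorem dd_pos (j : ℕ) : 0 < dd p j := by
  unfold dd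
  positivity

theorem dd_le (j : ℕ) : dd p j ≤ 1 / 1024 := by
  unfold dd
  have h1 := par_N_ge p (2 * j + 1)
  refine (pow_le_pow_of_le_one (by norm_num) (by norm_num) (show 10 ≤ 10 * p.N (2 * j + 1) by
    omega)).trans ?_
  norm_num

theorem dd_lt {i j : ℕ} (h : i < j) : dd p j ≤ dd p i / 8 := by
  unfold dd
  have h1 : p.N (2 * i + 1) < p.N (2 * j + 1) := par_N_mono p (by omega)
  refine (pow_le_pow_of_le_one (by norm_num) (by norm_num)
    (show 10 * p.N (2 * i + 1) + 3 ≤ 10 * p.N (2 * j + 1) by omega)).trans (le_of_eq ?_)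
  rw [pow_add]
  norm_num
  ring

theorem psi_nonneg (j : ℕ) (τ : ℂ) : 0 ≤ psi p j τ := chi_nonneg _

theorem psi_le_one (j : ℕ) (τ : ℂ) : psi p j τ ≤ 1 := chi_le_one _

theorem arc_of_psi {j : ℕ} {τ : ℂ} (hτ : ‖τ‖ = 1) (h : psi p j τ ≠ 0) : Arc p j τ := by
  obtain ⟨h1, h2⟩ := chi_ne h
  have hd := dd_pos p j
  rw [lt_div_iff₀ hd] at h1
  rw [div_lt_iff₀ hd] at h2
  exact ⟨hτ, by linarith, h2.le⟩

theorem arc_unique {i j : ℕ} {τ : ℂ} (hi : Arc p i τ) (hj : Arc p j τ) : i = j := by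
  have key : ∀ i j, i < j → Arc p i τ → Arc p j τ → False := by
    intro i j hij h1 h2
    have h3 := dd_lt p hij
    have h4 := dd_pos p i
    have h5 := h1.2.1
    have h6 := h2.2.2
    linarith
  rcases lt_trichotomy i j with h | h | h
  · exact (key i j h hi hj).elim
  · exact h
  · exact (key j i h hj hi).elim

theorem norm_zz (t : TC) : ‖zz t‖ = 1 := by
  unfold zz
  exact Circle.norm_coe _

theorem zz_cont : Continuous zz := by
  unfold zz
  exact continuous_subtype_val.comp AddCircle.continuous_toCircle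

theorem psi_cont (j : ℕ) : Continuous fun t : TC => psi p j (zz t) := by
  unfold psi
  exact chi_cont.comp (((continuous_const.sub zz_cont).norm).div_const _)

theorem arc_ne_one {j : ℕ} {τ : ℂ} (h : Arc p j τ) : 0 < ‖1 - τ‖ := by
  have h1 := dd_pos p j
  have h2 := h.2.1
  linarith

theorem arc_small {j : ℕ} {τ : ℂ} (h : Arc p j τ) :
    ‖1 - τ‖ * (p.n (2 * j + 1) : ℝ) ^ 9 ≤ 1 := by
  have h1 := h.2.2
  have h2 := par_N_ge p (2 * j + 1)
  unfold dd at h1
  unfold Par.n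
  set N := p.N (2 * j + 1) with hN
  push_cast
  have h3 : (0 : ℝ) < (2 ^ N) ^ 9 := by positivity
  refine (mul_le_mul_of_nonneg_right h1 h3.le).trans ?_
  have e1 : (2 : ℝ) * (1 / 2) ^ (10 * N) * (2 ^ N) ^ 9 = 2 * (1 / 2) ^ N := by
    have e2 : (1 / 2 : ℝ) ^ (10 * N) = (1 / 2) ^ N * ((1 / 2) ^ N) ^ 9 := by
      rw [← pow_mul, ← pow_add]
      congr 1
      ring
    have e3 : ((1 / 2 : ℝ) ^ N) ^ 9 * (2 ^ N) ^ 9 = 1 := by
      rw [← mul_pow, ← mul_pow]
      norm_num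
    rw [e2]
    linear_combination (2 * (1 / 2) ^ N) * e3
  rw [e1]
  have h4 : (1 / 2 : ℝ) ^ N ≤ (1 / 2) ^ 1 :=
    pow_le_pow_of_le_one (by norm_num) (by norm_num) (by omega)
  linarith

end Pool.Agent.HB
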