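import Pool.Agent.HB.S.S3

/-!
# HB.S.Cont: continuity of the special norms along curves

PROOF.  Let `F` be a curve with coordinates `< n` and fix `j`.
(1) `dom`: see the statement.  If `mu (k::σ) ≥ n` and `x` is supported in `[0,n)`: `res (Ici (mu (k::σ))) x = 0`.
  `|σ|` even: `VV (k::σ) x = PE x σ + (‖pr (H k) x‖ + 0)³` and `‖pr (H k) x‖ ≤ Lc (code σ) (res (Ici (mu σ)) x)` (`val_pr`,
  `LG_mono`), so `≤ VV σ x`.  `|σ|` odd, `σ = m :: ρ`: `VV (k::σ) x = ‖pr (H k) x + pr (H m) x‖³ + PE x ρ + 0 ≤
  PE x ρ + (‖pr (H m) x‖ + Lc (code σ) (res (Ici (mu σ)) x))³ = VV σ x`.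
(2) Hence by induction on lists: every valid `σ` has a suffix `σ'` with (`mu σ' < n` or `σ' = []`) and `VV σ x ≤ VV σ' x`.
  The set `𝒩` of lists with `mu < n`, together with `[]`, is finite (entries `≤ n`, length `≤ n`).
(3) `res E (F t)` only depends on `E ∩ [0,n)`: finitely many possibilities.  So for `Arc p j τ` (`τ = zz t`),
  `S3 = max` over the finite set of pairs `(σ' ∈ 𝒩 valid, E ∩ [0,n))` of `VV p H j τ σ' (res E (F t))` and each of these
  is continuous in `t` on the whole circle (`ev (zz t) (H k)` has continuous coordinates; `LG_cont`).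
(4) `psi * S3 = psi * max` everywhere (if `psi ≠ 0` then `Arc`), a continuous function.
-/

open Finset

namespace Pool.Agent.HB

variable {p : Par} {H : ℕ → Pol} {j : ℕ} {τ : ℂ}

theorem VV_dom {k : ℕ} {σ : List ℕ} (h : Val p H j (k :: σ)) (hτ : Arc p j τ) (n : ℕ)
    (hn : n ≤ mu H j (k :: σ)) (x : CV) (hx : ∀ i ∈ x.support, i < n) :
    VV p H j τ (k :: σ) x ≤ VV p H j τ σ x := by
  have hz : res (Set.Ici (mu H j (k :: σ))) x = 0 := by
    apply res_eq_zero
    intro i hi hi'
    have h1 := hx i hi
    have h3 : mu H j (k :: σ) ≤ i := hi'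
    omega
  have hz0 : ∀ c, Lc p c (0 : CV) = 0 := fun c => LG_zero (good_gamc p c)
  have hpr : ‖pr (ev τ (H k)) x‖ ≤ Lc p (code j σ) (res (Set.Ici (mu H j σ)) x) := by
    refine (val_pr h hτ x).trans ?_
    apply LG_mono (good_gamc p _)
    intro i
    by_cases hi : i ∈ Set.Ico (mu H j σ) (mu H j (k :: σ))
    · rw [res_apply_mem _ _ hi, res_apply_mem _ _ (show i ∈ Set.Ici (mu H j σ) from hi.1)]
    · rw [res_apply_not_mem _ _ hi]
      simp
  by_cases he : Even σ.length
  · have he' : ¬ Even (k :: σ).length := by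
      rw [List.length_cons, Nat.even_add_one]
      exact not_not.mpr he
    unfold VV
    rw [if_neg he', if_pos he, hz, hz0]
    simp only [List.tail_cons, List.headI_cons, add_zero]
    have := pow_le_pow_left₀ (norm_nonneg _) hpr 3
    linarith
  · have he' : Even (k :: σ).length := by
      rw [List.length_cons, Nat.even_add_one]
      exact he
    cases σ with
    | nil => simp at he
    | cons m ρ =>
      unfold VV
      rw [if_pos he', if_neg he, hz, hz0, PE]
      simp only [List.tail_cons, List.headI_cons]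
      have h1 : ‖pr (ev τ (H k)) x + pr (ev τ (H m)) x‖ ^ 3 ≤
          (‖pr (ev τ (H m)) x‖ + Lc p (code j (m :: ρ)) (res (Set.Ici (mu H j (m :: ρ))) x)) ^ 3 := by
        apply pow_le_pow_left₀ (norm_nonneg _)
        refine (norm_add_le _ _).trans ?_
        linarith
      linarith

/-- domination by a node with a small marker -/
theorem VV_dom_list (hτ : Arc p j τ) (n : ℕ) (x : CV) (hx : ∀ i ∈ x.support, i < n) :
    ∀ σ : List ℕ, Val p H j σ → ∃ σ', Val p H j σ' ∧ (mu H j σ' < n ∨ σ' = []) ∧
      VV p H j τ σ x ≤ VV p H j τ σ' x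
  | [], h => ⟨[], h, Or.inr rfl, le_rfl⟩
  | k :: σ, h => by
    by_cases hn : mu H j (k :: σ) < n
    · exact ⟨k :: σ, h, Or.inl hn, le_rfl⟩
    · obtain ⟨σ', h1, h2, h3⟩ := VV_dom_list hτ n x hx σ h.1
      exact ⟨σ', h1, h2, (VV_dom h hτ n (not_lt.mp hn) x hx).trans h3⟩

theorem mu_finite (H : ℕ → Pol) (j n : ℕ) : {σ : List ℕ | mu H j σ < n}.Finite := by
  induction n with
  | zero => simp
  | succ n ih =>
    have h2 : (⋃ k ∈ (range (n + 1) : Finset ℕ), (fun σ : List ℕ => k :: σ) ''
        {σ : List ℕ | mu H j σ < n}).Finite := by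
      apply Set.Finite.biUnion (range (n + 1)).finite_toSet
      intro k _
      exact ih.image _
    apply ((Set.finite_singleton ([] : List ℕ)).union h2).subset
    intro σ hσ
    cases σ with
    | nil => left; simp
    | cons k σ =>
      right
      have h3 : mu H j (k :: σ) < n + 1 := hσ
      unfold mu at h3
      rw [Set.mem_iUnion₂]
      refine ⟨k, by rw [mem_range]; omega, σ, ?_, rfl⟩
      show mu H j σ < n
      omega

theorem pr_ev_cont (g : Pol) (y : TC → CV) (hy : ∀ i, Continuous fun t => y t i) :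
    Continuous fun t => pr (ev (zz t) g) (y t) := by
  have e : ∀ t, pr (ev (zz t) g) (y t) = ∑ i ∈ g.support, (g i).eval (zz t) * y t i := by
    intro t
    rw [pr_eq_sum _ _ g.support (ev_support (zz t) g)]
    simp only [ev_apply]
  simp only [e]
  apply continuous_finsetSum
  intro i _
  exact ((g i).continuous.comp zz_cont).mul (hy i)

theorem PE_cont (H : ℕ → Pol) (y : TC → CV) (hy : ∀ i, Continuous fun t => y t i) :
    ∀ σ : List ℕ, Continuous fun t => PE H (zz t) (y t) σ
  | [] => by simp only [PE]; exact continuous_const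
  | [_] => by simp only [PE]; exact continuous_const
  | n :: m :: σ => by
    simp only [PE]
    exact (((pr_ev_cont (H n) y hy).add (pr_ev_cont (H m) y hy)).norm.pow 3).add
      (PE_cont H y hy σ)

theorem VV_cont (p : Par) (H : ℕ → Pol) (j : ℕ) (σ : List ℕ) (n : ℕ) (y : TC → CV)
    (h0 : ∀ t, ∀ i, n ≤ i → y t i = 0) (hy : ∀ i, Continuous fun t => y t i) :
    Continuous fun t => VV p H j (zz t) σ (y t) := by
  have hL : ∀ E : Set ℕ, ∀ c, Continuous fun t => Lc p c (res E (y t)) := by
    intro E c
    apply LG_cont (good_gamc p c) (fun t => res E (y t)) n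
    · intro t i hi
      by_cases hE : i ∈ E
      · rw [res_apply_mem _ _ hE, h0 t i hi]
      · rw [res_apply_not_mem _ _ hE]
    · intro i
      by_cases hE : i ∈ E
      · simp only [res_apply_mem _ _ hE]
        exact hy i
      · simp only [res_apply_not_mem _ _ hE]
        exact continuous_const
  unfold VV
  split_ifs with he
  · exact (PE_cont H y hy σ).add ((hL _ _).pow 3)
  · exact (PE_cont H y hy σ.tail).add (((pr_ev_cont _ y hy).norm.add (hL _ _)).pow 3)

open Classical in
theorem S3_cont (j : ℕ) (F : TC → CV) (hF : IsCur F) :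
    Continuous fun t => psi p j (zz t) * S3 p H j (zz t) (F t) := by
  obtain ⟨n, hn⟩ := hF.1
  have hfin : {σ : List ℕ | Val p H j σ ∧ (mu H j σ < n ∨ σ = [])}.Finite := by
    apply ((mu_finite H j n).union (Set.finite_singleton ([] : List ℕ))).subset
    rintro σ ⟨-, h | h⟩
    · exact Or.inl h
    · exact Or.inr h
  let P : Finset (List ℕ × Finset ℕ) := hfin.toFinset ×ˢ
    ((range n).powerset.filter fun A => ∃ E : Set ℕ, E.OrdConnected ∧ A = (range n).filter (· ∈ E))
  have hP : P.Nonempty := by
    refine ⟨([], range n), ?_⟩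
    rw [mem_product, Set.Finite.mem_toFinset, mem_filter, mem_powerset]
    refine ⟨⟨trivial, Or.inr rfl⟩, subset_rfl, Set.univ, Set.ordConnected_univ, ?_⟩
    simp
  have hres : ∀ (E : Set ℕ) (t : TC), res E (F t) = res (((range n).filter (· ∈ E) : Finset ℕ) : Set ℕ) (F t) := by
    intro E t
    ext i
    by_cases hi : i ∈ E
    · rw [res_apply_mem _ _ hi]
      by_cases hin : i < n
      · rw [res_apply_mem]
        simp [hi, hin]
      · rw [hn t i (not_lt.mp hin), res_apply_not_mem]
        simp [hin]
    · rw [res_apply_not_mem _ _ hi, res_apply_not_mem]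
      simp [hi]
  have key : ∀ t, psi p j (zz t) * S3 p H j (zz t) (F t) =
      psi p j (zz t) * P.sup' hP (fun q => VV p H j (zz t) q.1 (res (q.2 : Set ℕ) (F t))) := by
    intro t
    by_cases hz : psi p j (zz t) = 0
    · rw [hz, zero_mul, zero_mul]
    · have ha := arc_of_psi p (norm_zz t) hz
      congr 1
      apply le_antisymm
      · apply S3_le
        intro σ E h hE
        have hx : ∀ i ∈ (res E (F t)).support, i < n := by
          intro i hi
          by_contra hlt
          exact (Finsupp.mem_support_iff.mp ((res_support E (F t)).mp hi).2)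
            (hn t i (not_lt.mp hlt))
        obtain ⟨σ', h1, h2, h3⟩ := VV_dom_list ha n (res E (F t)) hx σ h
        refine h3.trans ?_
        have hm : (σ', (range n).filter (· ∈ E)) ∈ P := by
          rw [mem_product, Set.Finite.mem_toFinset, mem_filter, mem_powerset]
          exact ⟨⟨h1, h2⟩, filter_subset _ _, E, hE, rfl⟩
        have := le_sup' (fun q : List ℕ × Finset ℕ =>
          VV p H j (zz t) q.1 (res (q.2 : Set ℕ) (F t))) hm
        rw [hres E t]
        exact this
      · apply sup'_le
        rintro ⟨σ, A⟩ hq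
        rw [mem_product, Set.Finite.mem_toFinset, mem_filter, mem_powerset] at hq
        obtain ⟨⟨h1, -⟩, -, E, hE, rfl⟩ := hq
        simp only
        rw [← hres E t]
        exact VV_le_S3 ha h1 hE (F t)
  simp only [key]
  apply (psi_cont p j).mul
  apply Continuous.finset_sup'_apply
  rintro ⟨σ, A⟩ _
  apply VV_cont p H j σ n
  · intro t i hi
    by_cases hE : i ∈ (A : Set ℕ)
    · rw [res_apply_mem _ _ hE, hn t i hi]
    · rw [res_apply_not_mem _ _ hE]
  · intro i
    by_cases hE : i ∈ (A : Set ℕ)
    · simp only [res_apply_mem _ _ hE]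
      exact hF.2 i
    · simp only [res_apply_not_mem _ _ hE]
      exact continuous_const

end Pool.Agent.HB
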