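import Pool.Agent.HB.S.Pieces

/-!
# HB.S.PieceLem: consequences of a representation by pieces

PROOFS.
* `pc_tri`: Minkowski in `ℓ₃`.
* `pc_bound`: `s i x = s i (res (E i) x) ≤ 2 Lf (res (E i) x)`, `f x ≤ 8 ∑_{i<n_c} Lf (res (E i) x)³ ≤ 8 √m_c Lc c x³` (`sum_L_cube`).
* `pc_u3`: `x = ∑_{k<n} x k`, successive.  For a piece `i` let `R i = {k < n | supp (x k) ∩ E i ≠ ∅}`.  If `R i = ∅` then
  `s i x = 0`.  Let `k⁻ = min R i`, `k⁺ = max R i`.  If `k⁻ = k⁺`, `s i x = s i (x k⁻)`.  Otherwise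
  `s i x ≤ s i (x k⁻) + s i (x k⁺) + s i (∑_{k⁻<k<k⁺} x k)` and for `k⁻ < k < k⁺` the support of `x k` lies between two
  elements of `E i`, hence in `E i` (`ord`); so with `(a+b+c)³ ≤ 9(a³+b³+c³)`:
  `(s i x)³ ≤ 9 ∑_k (s i (x k))³·(at most twice) + 9·8·Lf(∑_{mid i} x k)³`, and `Lf(∑_{mid i} x k)³ ≤ ∑_{mid i} Lf(x k)³` (`LG_disj`),
  where `mid i ⊆ {k | x k ≠ 0, supp (x k) ⊆ E i}` (drop `x k = 0`); these sets are disjoint for different `i`.
  Sum over `i`: `f x ≤ 9 · 2 ∑_k f (x k) + 72 ∑_k Lf(x k)³`.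
  (`∑_i (s i (x k⁻(i)))³ ≤ ∑_i ∑_k (s i (x k))³ = ∑_k f (x k)`.)
* `pc_cut`: let `E'` be order connected.  Pieces with `E i ∩ E' = ∅` contribute `0`; pieces with `E i ⊆ E'` contribute
  `(s i x)³`; the other ones are at most two (if `i₁ < i₂ < i₃` all meet `E'`, then `E i₂ ⊆ E'`) and contribute at most
  `(2 Lf x)³` each.
-/

open Finset

namespace Pool.Agent.HB

variable {p : Par} {r : ℕ} {f : CV → ℝ} {s : ℕ → CV → ℝ} {E : ℕ → Set ℕ}

private lemma card_le_two (O : Finset ℕ)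
    (h : ∀ i ∈ O, ∀ j ∈ O, ∀ k ∈ O, i < j → j < k → False) : O.card ≤ 2 := by
  classical
  rcases O.eq_empty_or_nonempty with h0 | h0
  · rw [h0]; simp
  · have hsub : O ⊆ {O.min' h0, O.max' h0} := by
      intro k hk
      rw [Finset.mem_insert, Finset.mem_singleton]
      by_contra hcon
      rw [not_or] at hcon
      have h1 : O.min' h0 < k := lt_of_le_of_ne (O.min'_le k hk) (Ne.symm hcon.1)
      have h2 : k < O.max' h0 := lt_of_le_of_ne (O.le_max' k hk) hcon.2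
      exact h _ (O.min'_mem h0) k hk _ (O.max'_mem h0) h1 h2
    exact (Finset.card_le_card hsub).trans Finset.card_le_two

private lemma inner_pow_sum (B : Finset ℕ) (g : ℕ → ℝ) (hg : ∀ k ∈ B, 0 ≤ g k) :
    (∑ k ∈ B, g k) ^ 3 ≤ (B.card : ℝ) ^ 2 * ∑ k ∈ B, g k ^ 3 := by
  rcases B.eq_empty_or_nonempty with h0 | h0
  · rw [h0]; simp
  · have h1 : (∑ k ∈ B, g k) ^ (2 + 1) / (B.card : ℝ) ^ 2 ≤ ∑ k ∈ B, g k ^ (2 + 1) :=
      pow_sum_div_card_le_sum_pow (s := B) hg 2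
    have h2 : (0 : ℝ) < (B.card : ℝ) ^ 2 := by
      have : (0 : ℝ) < B.card := by exact_mod_cast h0.card_pos
      positivity
    rw [div_le_iff₀ h2] at h1
    norm_num at h1
    linarith

private lemma pc_zero (h : Pieces p r f s E) (i : ℕ) : s i 0 = 0 := by
  have := h.smul i 0 0
  rw [zero_smul, norm_zero, zero_mul] at this
  exact this

private lemma pc_sum (h : Pieces p r f s E) (i : ℕ) (A : Finset ℕ) (x : ℕ → CV) :
    s i (∑ k ∈ A, x k) ≤ ∑ k ∈ A, s i (x k) := by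
  classical
  induction A using Finset.induction_on with
  | empty => rw [Finset.sum_empty, Finset.sum_empty, pc_zero h]
  | insert a A ha ih =>
    rw [Finset.sum_insert ha, Finset.sum_insert ha]
    exact (h.add i _ _).trans (add_le_add_right ih _)

theorem pc_nonneg (h : Pieces p r f s E) (x : CV) : 0 ≤ f x := by
  rw [h.eq]
  exact Finset.sum_nonneg fun i _ => pow_nonneg (h.nn i x) 3

theorem pc_smul (h : Pieces p r f s E) (a : ℂ) (x : CV) : f (a • x) = ‖a‖ ^ 3 * f x := by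
  rw [h.eq, h.eq, Finset.mul_sum]
  refine Finset.sum_congr rfl fun i _ => ?_
  rw [h.smul, mul_pow]

theorem pc_tri (h : Pieces p r f s E) (x y : CV) :
    (f (x + y)) ^ ((1 : ℝ) / 3) ≤ (f x) ^ ((1 : ℝ) / 3) + (f y) ^ ((1 : ℝ) / 3) := by
  have key := Real.Lp_add_le_of_nonneg (range r) (f := fun i => s i x) (g := fun i => s i y)
    (p := 3) (by norm_num) (fun i _ => h.nn i x) (fun i _ => h.nn i y)
  have e : ∀ t : ℝ, t ^ (3 : ℝ) = t ^ 3 := fun t => by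
    rw [← Real.rpow_natCast]; norm_num
  simp only [e] at key
  rw [h.eq x, h.eq y]
  refine le_trans ?_ key
  refine Real.rpow_le_rpow (pc_nonneg h _) ?_ (by norm_num)
  rw [h.eq]
  exact Finset.sum_le_sum fun i _ => pow_le_pow_left₀ (h.nn i _) (h.add i x y) 3

theorem pc_bound (h : Pieces p r f s E) (c : ℕ) (hr : r ≤ p.n c) (x : CV) :
    f x ≤ 8 * √(p.m c) * Lc p c x ^ 3 := by
  rw [h.eq]
  have h1 : ∀ i ∈ range r, s i x ^ 3 ≤ 8 * Lf p (res (E i) x) ^ 3 := by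
    intro i _
    have h2 : s i x ≤ 2 * Lf p (res (E i) x) := by
      rw [h.loc i x]
      exact h.bd i _
    have h3 := pow_le_pow_left₀ (h.nn i x) h2 3
    rw [mul_pow] at h3
    norm_num at h3
    exact h3
  refine (Finset.sum_le_sum h1).trans ?_
  rw [← Finset.mul_sum]
  have h4 : ∑ i ∈ range r, Lf p (res (E i) x) ^ 3 ≤ ∑ i ∈ range (p.n c), Lf p (res (E i) x) ^ 3 :=
    Finset.sum_le_sum_of_subset_of_nonneg (Finset.range_mono hr)
      fun i _ _ => pow_nonneg (LG_nonneg (good_gam p) _) 3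
  have h5 := sum_L_cube p c E h.succ x
  calc 8 * ∑ i ∈ range r, Lf p (res (E i) x) ^ 3
      ≤ 8 * (√(p.m c) * Lc p c x ^ 3) := by linarith
    _ = 8 * √(p.m c) * Lc p c x ^ 3 := by ring

private lemma pc_piece (h : Pieces p r f s E) (n : ℕ) (x : ℕ → CV)
    (hx : ∀ k < n, ∀ l < n, k < l → Lt (x k) (x l)) (i : ℕ) (Mi : Finset ℕ)
    (hMi : ∀ k, k ∈ Mi ↔ k < n ∧ x k ≠ 0 ∧ ∀ a ∈ (x k).support, a ∈ E i) :
    s i (∑ k ∈ range n, x k) ^ 3 ≤
      16 * ∑ k ∈ range n, s i (x k) ^ 3 + 32 * ∑ k ∈ Mi, Lf p (x k) ^ 3 := by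
  classical
  have hgood := good_gam p
  let B : Finset ℕ := (range n).filter fun k => (∃ a ∈ (x k).support, a ∈ E i) ∧ k ∉ Mi
  let Z : Finset ℕ := (range n).filter fun k => ¬ ∃ a ∈ (x k).support, a ∈ E i
  have hBcard : B.card ≤ 2 := by
    refine card_le_two B ?_
    intro k₁ h₁ k₂ h₂ k₃ h₃ h12 h23
    rw [Finset.mem_filter, Finset.mem_range] at h₁ h₂ h₃
    obtain ⟨hk₁, ⟨a₁, ha₁, ha₁E⟩, -⟩ := h₁
    obtain ⟨hk₂, ⟨a₂, ha₂, ha₂E⟩, hk₂M⟩ := h₂
    obtain ⟨hk₃, ⟨a₃, ha₃, ha₃E⟩, -⟩ := h₃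
    apply hk₂M
    rw [hMi]
    refine ⟨hk₂, ?_, ?_⟩
    · intro h0
      rw [h0] at ha₂
      simp at ha₂
    · intro a ha
      have g1 : a₁ < a := hx k₁ hk₁ k₂ hk₂ h12 a₁ ha₁ a ha
      have g2 : a < a₃ := hx k₂ hk₂ k₃ hk₃ h23 a ha a₃ ha₃
      exact (h.ord i).out ha₁E ha₃E ⟨g1.le, g2.le⟩
  have hMsub : Mi ⊆ range n := by
    intro k hk
    exact Finset.mem_range.2 ((hMi k).1 hk).1
  have hdec : ∑ k ∈ range n, x k = ∑ k ∈ B, x k + (∑ k ∈ Mi, x k + ∑ k ∈ Z, x k) := by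
    have hU : range n = B ∪ (Mi ∪ Z) := by
      ext k
      simp only [B, Z, Finset.mem_union, Finset.mem_filter, Finset.mem_range]
      constructor
      · intro hk
        by_cases h1 : ∃ a ∈ (x k).support, a ∈ E i
        · by_cases h2 : k ∈ Mi
          · exact Or.inr (Or.inl h2)
          · exact Or.inl ⟨hk, h1, h2⟩
        · exact Or.inr (Or.inr ⟨hk, h1⟩)
      · rintro (h1 | h1 | h1)
        · exact h1.1
        · exact ((hMi k).1 h1).1
        · exact h1.1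
    have hd1 : Disjoint B (Mi ∪ Z) := by
      rw [Finset.disjoint_left]
      intro k hk hk'
      simp only [B, Finset.mem_filter] at hk
      rcases Finset.mem_union.1 hk' with h1 | h1
      · exact hk.2.2 h1
      · simp only [Z, Finset.mem_filter] at h1
        exact h1.2 hk.2.1
    have hd2 : Disjoint Mi Z := by
      rw [Finset.disjoint_left]
      intro k hk hk'
      simp only [Z, Finset.mem_filter] at hk'
      apply hk'.2
      obtain ⟨-, h1, h2⟩ := (hMi k).1 hk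
      obtain ⟨a, ha⟩ := Finsupp.support_nonempty_iff.2 h1
      exact ⟨a, ha, h2 a ha⟩
    rw [hU, Finset.sum_union hd1, Finset.sum_union hd2]
  have hZ : s i (∑ k ∈ Z, x k) = 0 := by
    rw [h.loc, res_sum, Finset.sum_eq_zero, pc_zero h]
    intro k hk
    simp only [Z, Finset.mem_filter] at hk
    refine res_eq_zero _ _ ?_
    intro a ha haE
    exact hk.2 ⟨a, ha, haE⟩
  have hS : s i (∑ k ∈ range n, x k) ≤ ∑ k ∈ B, s i (x k) + 2 * Lf p (∑ k ∈ Mi, x k) := by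
    rw [hdec]
    have g1 := h.add i (∑ k ∈ B, x k) (∑ k ∈ Mi, x k + ∑ k ∈ Z, x k)
    have g2 := h.add i (∑ k ∈ Mi, x k) (∑ k ∈ Z, x k)
    have g3 := pc_sum h i B x
    have g4 := h.bd i (∑ k ∈ Mi, x k)
    linarith
  have hL : Lf p (∑ k ∈ Mi, x k) ^ 3 ≤ ∑ k ∈ Mi, Lf p (x k) ^ 3 := by
    refine LG_disj hgood Mi x ?_
    intro k hk l hl hkl
    have hk' := Finset.mem_range.1 (hMsub hk)
    have hl' := Finset.mem_range.1 (hMsub hl)
    rw [Finset.disjoint_left]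
    intro a ha ha'
    rcases lt_or_gt_of_ne hkl with hlt | hgt
    · exact lt_irrefl _ (hx k hk' l hl' hlt a ha a ha')
    · exact lt_irrefl _ (hx l hl' k hk' hgt a ha' a ha)
  have hnn : 0 ≤ ∑ k ∈ B, s i (x k) := Finset.sum_nonneg fun k _ => h.nn i _
  have hLn : 0 ≤ Lf p (∑ k ∈ Mi, x k) := LG_nonneg hgood _
  have hB3 : (∑ k ∈ B, s i (x k)) ^ 3 ≤ 4 * ∑ k ∈ range n, s i (x k) ^ 3 := by
    have g1 := inner_pow_sum B (fun k => s i (x k)) (fun k _ => h.nn i _)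
    have g2 : ∑ k ∈ B, s i (x k) ^ 3 ≤ ∑ k ∈ range n, s i (x k) ^ 3 :=
      Finset.sum_le_sum_of_subset_of_nonneg (Finset.filter_subset _ _)
        fun k _ _ => pow_nonneg (h.nn i _) 3
    have g3 : (B.card : ℝ) ^ 2 ≤ 4 := by
      have : (B.card : ℝ) ≤ 2 := by exact_mod_cast hBcard
      have h0 : (0 : ℝ) ≤ B.card := Nat.cast_nonneg _
      nlinarith
    have g4 : 0 ≤ ∑ k ∈ B, s i (x k) ^ 3 := Finset.sum_nonneg fun k _ => pow_nonneg (h.nn i _) 3
    calc (∑ k ∈ B, s i (x k)) ^ 3 ≤ (B.card : ℝ) ^ 2 * ∑ k ∈ B, s i (x k) ^ 3 := g1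
      _ ≤ 4 * ∑ k ∈ B, s i (x k) ^ 3 := mul_le_mul_of_nonneg_right g3 g4
      _ ≤ _ := by linarith
  have hcube := pow_le_pow_left₀ (h.nn i _) hS 3
  have hab : (∑ k ∈ B, s i (x k) + 2 * Lf p (∑ k ∈ Mi, x k)) ^ 3 ≤
      4 * ((∑ k ∈ B, s i (x k)) ^ 3 + (2 * Lf p (∑ k ∈ Mi, x k)) ^ 3) := by
    have := add_pow_le hnn (by positivity : 0 ≤ 2 * Lf p (∑ k ∈ Mi, x k)) 3
    norm_num at this
    exact this
  rw [mul_pow 2] at hab
  norm_num at hab
  linarith

theorem pc_u3 (h : Pieces p r f s E) (n : ℕ) (x : ℕ → CV)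
    (hx : ∀ k < n, ∀ l < n, k < l → Lt (x k) (x l)) :
    f (∑ k ∈ range n, x k) ≤ 18 * ∑ k ∈ range n, f (x k) + 72 * ∑ k ∈ range n, Lf p (x k) ^ 3 := by
  classical
  have hgood := good_gam p
  let Mi : ℕ → Finset ℕ := fun i =>
    (range n).filter fun k => x k ≠ 0 ∧ ∀ a ∈ (x k).support, a ∈ E i
  have hMi : ∀ i k, k ∈ Mi i ↔ k < n ∧ x k ≠ 0 ∧ ∀ a ∈ (x k).support, a ∈ E i := by
    intro i k
    simp only [Mi, Finset.mem_filter, Finset.mem_range]
  have h1 : f (∑ k ∈ range n, x k) ≤ ∑ i ∈ range r,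
      (16 * ∑ k ∈ range n, s i (x k) ^ 3 + 32 * ∑ k ∈ Mi i, Lf p (x k) ^ 3) := by
    rw [h.eq]
    exact Finset.sum_le_sum fun i _ => pc_piece h n x hx i (Mi i) (hMi i)
  have h2 : ∑ i ∈ range r, ∑ k ∈ range n, s i (x k) ^ 3 = ∑ k ∈ range n, f (x k) := by
    rw [Finset.sum_comm]
    exact Finset.sum_congr rfl fun k _ => (h.eq (x k)).symm
  have h3 : ∑ i ∈ range r, ∑ k ∈ Mi i, Lf p (x k) ^ 3 ≤ ∑ k ∈ range n, Lf p (x k) ^ 3 := by
    rw [← Finset.sum_biUnion]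
    · refine Finset.sum_le_sum_of_subset_of_nonneg ?_ fun k _ _ => pow_nonneg (LG_nonneg hgood _) 3
      intro k hk
      rw [Finset.mem_biUnion] at hk
      obtain ⟨i, -, hi⟩ := hk
      exact Finset.mem_range.2 ((hMi i k).1 hi).1
    · intro i _ j _ hij
      show Disjoint (Mi i) (Mi j)
      rw [Finset.disjoint_left]
      intro k hk hk'
      obtain ⟨-, h0, g1⟩ := (hMi i k).1 hk
      obtain ⟨-, -, g2⟩ := (hMi j k).1 hk'
      obtain ⟨a, ha⟩ := Finsupp.support_nonempty_iff.2 h0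
      rcases lt_or_gt_of_ne hij with hlt | hgt
      · exact lt_irrefl _ (h.succ i j hlt a (g1 a ha) a (g2 a ha))
      · exact lt_irrefl _ (h.succ j i hgt a (g2 a ha) a (g1 a ha))
  have h4 : 0 ≤ ∑ k ∈ range n, f (x k) := Finset.sum_nonneg fun k _ => pc_nonneg h _
  have h5 : 0 ≤ ∑ k ∈ range n, Lf p (x k) ^ 3 :=
    Finset.sum_nonneg fun k _ => pow_nonneg (LG_nonneg hgood _) 3
  rw [Finset.sum_add_distrib, ← Finset.mul_sum, ← Finset.mul_sum, h2] at h1
  linarith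

theorem pc_cut (h : Pieces p r f s E) (E' : Set ℕ) (hE : E'.OrdConnected) (x : CV) :
    f (res E' x) ≤ f x + 16 * Lf p x ^ 3 := by
  classical
  have hgood := good_gam p
  let O : Finset ℕ := (range r).filter fun i => (∃ a, a ∈ E i ∧ a ∈ E') ∧ ¬ E i ⊆ E'
  have hO : O.card ≤ 2 := by
    refine card_le_two O ?_
    intro i₁ h₁ i₂ h₂ i₃ h₃ h12 h23
    rw [Finset.mem_filter] at h₁ h₂ h₃
    obtain ⟨-, ⟨a₁, ha₁, ha₁'⟩, -⟩ := h₁
    obtain ⟨-, -, hn⟩ := h₂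
    obtain ⟨-, ⟨a₃, ha₃, ha₃'⟩, -⟩ := h₃
    apply hn
    intro a ha
    exact hE.out ha₁' ha₃' ⟨(h.succ _ _ h12 a₁ ha₁ a ha).le, (h.succ _ _ h23 a ha a₃ ha₃).le⟩
  have hL0 : 0 ≤ Lf p x := LG_nonneg hgood x
  have h1 : ∀ i ∈ range r, s i (res E' x) ^ 3 ≤
      s i x ^ 3 + if i ∈ O then 8 * Lf p x ^ 3 else 0 := by
    intro i hi
    have hn : 0 ≤ s i x ^ 3 := pow_nonneg (h.nn i x) 3
    by_cases hiO : i ∈ O
    · rw [if_pos hiO]
      have g1 : s i (res E' x) ≤ 2 * Lf p x :=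
        (h.bd i _).trans (mul_le_mul_of_nonneg_left (LG_res_le hgood E' x) (by norm_num))
      have g2 := pow_le_pow_left₀ (h.nn i _) g1 3
      rw [mul_pow] at g2
      norm_num at g2
      linarith
    · rw [if_neg hiO, add_zero]
      by_cases h2 : ∃ a, a ∈ E i ∧ a ∈ E'
      · have h3 : E i ⊆ E' := by
          by_contra h3
          exact hiO (Finset.mem_filter.2 ⟨hi, h2, h3⟩)
        have h4 : s i (res E' x) = s i x := by
          rw [h.loc i (res E' x), res_res, Set.inter_eq_left.2 h3, ← h.loc]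
        rw [h4]
      · have h4 : s i (res E' x) = 0 := by
          rw [h.loc i (res E' x), res_res]
          have h5 : E i ∩ E' = ∅ := by
            ext a
            simp only [Set.mem_inter_iff, Set.mem_empty_iff_false, iff_false]
            intro ha
            exact h2 ⟨a, ha⟩
          rw [h5, res_eq_zero, pc_zero h]
          intro a _ ha
          exact ha
        rw [h4]
        norm_num
        exact hn
  have h2 : f (res E' x) ≤ ∑ i ∈ range r, (s i x ^ 3 + if i ∈ O then 8 * Lf p x ^ 3 else 0) := by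
    rw [h.eq]
    exact Finset.sum_le_sum h1
  rw [Finset.sum_add_distrib, ← h.eq x, ← Finset.sum_filter, Finset.sum_const, nsmul_eq_mul] at h2
  have h3 : (((range r).filter fun i => i ∈ O).card : ℝ) ≤ 2 := by
    have : ((range r).filter fun i => i ∈ O).card ≤ O.card :=
      Finset.card_le_card fun i hi => (Finset.mem_filter.1 hi).2
    exact_mod_cast this.trans hO
  have h4 : 0 ≤ 8 * Lf p x ^ 3 := by positivity
  have h5 := mul_le_mul_of_nonneg_right h3 h4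
  linarith

end Pool.Agent.HB
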