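import Pool.Agent.HB.L.Code
import Pool.Agent.HB.S.Chi

/-!
# HB.S.Pieces: the value of a node is a sum of cubes of localized seminorms

PROOF.  Facts used: `Val p H j (n :: σ)` gives `supp (H n) ⊆ [mu σ, mu (n::σ))` (`i ≤ top (H n) < mu H j (n::σ)`), and, for
`Arc p j τ`, `‖pr (ev τ (H n)) x‖ ≤ Lc (code j σ) x ≤ Lf x`; every suffix of a valid node is valid; `mu` increases.
(`ev_support`: the support of `ev τ (H n)` is contained in the one of `H n`.)
*Even length*, `|σ| = 2q`: pieces `i < q`: the pair of the suffix of length `2i+2` (chronological order: for the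
suffix `n :: m :: ρ`, `|ρ| = 2i`): `s i x = ‖pr (ev τ (H n)) x + pr (ev τ (H m)) x‖`, `E i = Ico (mu ρ) (mu (n::m::ρ))`.
`PE H τ x σ = ∑_{i<q} (s i x)³`.  For `VV` the last piece `i = q`: `s q x = Lc (code j σ) (res (Ici (mu σ)) x)`, `E q = Ici (mu σ)`.
`r = q + 1 ≤ p.n (lc j)` since `2q ≤ p.n (lc j)` and `p.n ≥ 2`.
*Odd length*, `σ = n :: σ'`, `|σ'| = 2q`: pairs of `σ'` and the last piece
`s q x = ‖pr (ev τ (H n)) x‖ + Lc (code j σ) (res (Ici (mu σ)) x)`, `E q = Ici (mu σ')`.
For `i ≥ r`: `s i = 0`, `E i = ∅`.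
Bound `s i x ≤ 2 Lf x`: two functionals bounded by `Lf`, `Lc ≤ Lf`, `LG_res_le`.
Suggestion: first prove the statement for `PE` by induction on the even suffixes (strong induction on lists two
elements at a time), carrying the extra information `∀ i, ∀ a ∈ E i, a < mu H j σ`.
-/

open Finset

namespace Pool.Agent.HB

structure Pieces (p : Par) (r : ℕ) (f : CV → ℝ) (s : ℕ → CV → ℝ) (E : ℕ → Set ℕ) : Prop where
  ord : ∀ i, (E i).OrdConnected
  succ : ∀ i j, i < j → ∀ a ∈ E i, ∀ b ∈ E j, a < b
  nn : ∀ i x, 0 ≤ s i x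
  smul : ∀ i (a : ℂ) x, s i (a • x) = ‖a‖ * s i x
  add : ∀ i x y, s i (x + y) ≤ s i x + s i y
  loc : ∀ i x, s i x = s i (res (E i) x)
  bd : ∀ i x, s i x ≤ 2 * Lf p x
  eq : ∀ x, f x = ∑ i ∈ range r, s i x ^ 3

variable {p : Par} {H : ℕ → Pol} {j : ℕ} {τ : ℂ}

theorem val_tail {n : ℕ} {σ : List ℕ} (h : Val p H j (n :: σ)) : Val p H j σ := h.1

theorem val_length {σ : List ℕ} (h : Val p H j σ) : σ.length ≤ p.n (lc j) := by
  cases σ with
  | nil => exact Nat.zero_le _
  | cons n σ => exact h.2.1

theorem val_supp {n : ℕ} {σ : List ℕ} (h : Val p H j (n :: σ)) (τ : ℂ) {i : ℕ}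
    (hi : i ∈ (ev τ (H n)).support) : mu H j σ ≤ i ∧ i < mu H j (n :: σ) := by
  have h1 := ev_support τ (H n) hi
  refine ⟨h.2.2.1 i h1, ?_⟩
  have h2 : i ≤ top (H n) := le_sup (f := id) h1
  show i < mu H j σ + n + top (H n) + 1
  omega

/-- the `n`-th functional of a node is bounded by the code part of the tail -/
theorem val_pr {n : ℕ} {σ : List ℕ} (h : Val p H j (n :: σ)) (hτ : Arc p j τ) (x : CV) :
    ‖pr (ev τ (H n)) x‖ ≤ Lc p (code j σ) (res (Set.Ico (mu H j σ) (mu H j (n :: σ))) x) := by
  rw [pr_eq_res (Set.Ico (mu H j σ) (mu H j (n :: σ))) (ev τ (H n)) x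
    (fun i hi => val_supp h τ hi)]
  exact h.2.2.2 τ hτ _

theorem val_pr_L {n : ℕ} {σ : List ℕ} (h : Val p H j (n :: σ)) (hτ : Arc p j τ) (x : CV) :
    ‖pr (ev τ (H n)) x‖ ≤ Lf p x :=
  (h.2.2.2 τ hτ x).trans (Lc_le_L p _ x)

/-- append a piece -/
theorem pieces_snoc {r : ℕ} {f : CV → ℝ} {s : ℕ → CV → ℝ} {E : ℕ → Set ℕ}
    (hp : Pieces p r f s E) {M : ℕ} (hM : ∀ i, ∀ a ∈ E i, a < M) (D : Set ℕ)
    (hD : D.OrdConnected) (hDM : ∀ b ∈ D, M ≤ b) (u : CV → ℝ) (hnn : ∀ x, 0 ≤ u x)
    (hsm : ∀ (a : ℂ) x, u (a • x) = ‖a‖ * u x) (hadd : ∀ x y, u (x + y) ≤ u x + u y)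
    (hloc : ∀ x, u x = u (res D x)) (hbd : ∀ x, u x ≤ 2 * Lf p x) (g : CV → ℝ)
    (hg : ∀ x, g x = f x + u x ^ 3) :
    ∃ (s' : ℕ → CV → ℝ) (E' : ℕ → Set ℕ), Pieces p (r + 1) g s' E' ∧
      ∀ i, ∀ a ∈ E' i, a < M ∨ a ∈ D := by
  have hL : ∀ x, 0 ≤ Lf p x := fun x => LG_nonneg (good_gam p) x
  refine ⟨fun i => if i < r then s i else if i = r then u else fun _ => 0,
    fun i => if i < r then E i else if i = r then D else ∅, ?_, ?_⟩
  · constructor
    · intro i
      split_ifs
      · exact hp.ord i
      · exact hD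
      · exact Set.ordConnected_empty
    · intro i k hik a ha b hb
      try dsimp only at ha hb
      split_ifs at hb with h1 h2
      · rw [if_pos (hik.trans h1)] at ha
        exact hp.succ i k hik a ha b hb
      · rw [if_pos (h2 ▸ hik)] at ha
        exact (hM i a ha).trans_le (hDM b hb)
      · exact absurd hb (Set.notMem_empty b)
    · intro i x
      split_ifs
      · exact hp.nn i x
      · exact hnn x
      · exact le_rfl
    · intro i a x
      split_ifs
      · exact hp.smul i a x
      · exact hsm a x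
      · simp
    · intro i x y
      split_ifs
      · exact hp.add i x y
      · exact hadd x y
      · simp
    · intro i x
      split_ifs
      · exact hp.loc i x
      · exact hloc x
      · rfl
    · intro i x
      split_ifs
      · exact hp.bd i x
      · exact hbd x
      · have := hL x
        linarith
    · intro x
      rw [hg, hp.eq, sum_range_succ]
      congr 1
      · apply sum_congr rfl
        intro i hi
        rw [if_pos (mem_range.mp hi)]
      · rw [if_neg (lt_irrefl r), if_pos rfl]
  · intro i a ha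
    dsimp only at ha
    split_ifs at ha with h1 h2
    · exact Or.inl (hM i a ha)
    · exact Or.inr ha
    · exact absurd ha (Set.notMem_empty a)

theorem PE_pieces_aux (hτ : Arc p j τ) : ∀ σ : List ℕ, Val p H j σ → Even σ.length →
    ∃ (r : ℕ) (s : ℕ → CV → ℝ) (E : ℕ → Set ℕ), 2 * r = σ.length ∧
      Pieces p r (fun x => PE H τ x σ) s E ∧ ∀ i, ∀ a ∈ E i, a < mu H j σ
  | [], _, _ => by
    refine ⟨0, fun _ _ => 0, fun _ => ∅, rfl, ?_, fun _ a ha => absurd ha (Set.notMem_empty a)⟩
    constructor
    · intro i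
      exact Set.ordConnected_empty
    · intro i k _ a ha
      exact absurd ha (Set.notMem_empty a)
    · intro i x
      exact le_rfl
    · intro i a x
      simp
    · intro i x y
      simp
    · intro i x
      rfl
    · intro i x
      have : 0 ≤ Lf p x := LG_nonneg (good_gam p) x
      linarith
    · intro x
      simp [PE]
  | [_], _, he => by simp at he
  | n :: m :: ρ, h, he => by
    have he' : Even ρ.length := by
      rw [List.length_cons, List.length_cons, Nat.even_add_one, Nat.even_add_one, not_not] at he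
      exact he
    obtain ⟨r, s, E, hr, hp, hM⟩ := PE_pieces_aux hτ ρ h.1.1 he'
    have hmu1 : mu H j ρ < mu H j (m :: ρ) := by
      show mu H j ρ < mu H j ρ + m + top (H m) + 1
      omega
    have hmu2 : mu H j (m :: ρ) < mu H j (n :: m :: ρ) := by
      show mu H j (m :: ρ) < mu H j (m :: ρ) + n + top (H n) + 1
      omega
    obtain ⟨s', E', hp', hE'⟩ := pieces_snoc hp hM
      (Set.Ico (mu H j ρ) (mu H j (n :: m :: ρ))) Set.ordConnected_Ico (fun b hb => hb.1)
      (fun x => ‖pr (ev τ (H n)) x + pr (ev τ (H m)) x‖) (fun x => norm_nonneg _)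
      (by
        intro a x
        rw [pr_smul_right, pr_smul_right, ← mul_add, norm_mul])
      (by
        intro x y
        rw [pr_add_right, pr_add_right]
        have e : pr (ev τ (H n)) x + pr (ev τ (H n)) y + (pr (ev τ (H m)) x + pr (ev τ (H m)) y) =
            (pr (ev τ (H n)) x + pr (ev τ (H m)) x) + (pr (ev τ (H n)) y + pr (ev τ (H m)) y) := by
          ring
        rw [e]
        exact norm_add_le _ _)
      (by
        intro x
        rw [← pr_eq_res _ (ev τ (H n)) x, ← pr_eq_res _ (ev τ (H m)) x]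
        · intro i hi
          have := val_supp h.1 τ hi
          exact ⟨this.1, this.2.trans hmu2⟩
        · intro i hi
          have := val_supp h τ hi
          exact ⟨hmu1.le.trans this.1, this.2⟩)
      (by
        intro x
        have h1 := val_pr_L h hτ x
        have h2 := val_pr_L h.1 hτ x
        have h3 := norm_add_le (pr (ev τ (H n)) x) (pr (ev τ (H m)) x)
        linarith)
      (fun x => PE H τ x (n :: m :: ρ))
      (by
        intro x
        show ‖pr (ev τ (H n)) x + pr (ev τ (H m)) x‖ ^ 3 + PE H τ x ρ = _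
        ring)
    refine ⟨r + 1, s', E', by simp only [List.length_cons]; omega, hp', ?_⟩
    intro i a ha
    rcases hE' i a ha with h1 | h1
    · exact h1.trans (hmu1.trans hmu2)
    · exact h1.2

theorem PE_pieces {σ : List ℕ} (h : Val p H j σ) (he : Even σ.length) (hτ : Arc p j τ) :
    ∃ (r : ℕ) (s : ℕ → CV → ℝ) (E : ℕ → Set ℕ), 2 * r = σ.length ∧
      Pieces p r (fun x => PE H τ x σ) s E ∧ ∀ i, ∀ a ∈ E i, a < mu H j σ :=
  PE_pieces_aux hτ σ h he

theorem two_le_n (p : Par) (c : ℕ) : 2 ≤ p.n c := by
  have h : 1 ≤ p.N c := (par_N_ge p c).trans' (by norm_num)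
  unfold Par.n
  calc 2 = 2 ^ 1 := by norm_num
    _ ≤ 2 ^ p.N c := Nat.pow_le_pow_right (by norm_num) h

theorem VV_pieces {σ : List ℕ} (h : Val p H j σ) (hτ : Arc p j τ) :
    ∃ (r : ℕ) (s : ℕ → CV → ℝ) (E : ℕ → Set ℕ), r ≤ p.n (lc j) ∧
      Pieces p r (VV p H j τ σ) s E := by
  have hlen := val_length h
  have hn2 := two_le_n p (lc j)
  by_cases he : Even σ.length
  · obtain ⟨r, s, E, hr, hp, hM⟩ := PE_pieces h he hτ
    obtain ⟨s', E', hp', -⟩ := pieces_snoc hp hM (Set.Ici (mu H j σ)) Set.ordConnected_Ici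
      (fun b hb => hb) (fun x => Lc p (code j σ) (res (Set.Ici (mu H j σ)) x))
      (fun x => LG_nonneg (good_gamc p _) _)
      (by
        intro a x
        rw [res_smul]
        exact LG_smul (good_gamc p _) a _)
      (by
        intro x y
        rw [res_add]
        exact LG_add_le (good_gamc p _) _ _)
      (by
        intro x
        rw [res_res, Set.inter_self])
      (by
        intro x
        have h1 : Lc p (code j σ) (res (Set.Ici (mu H j σ)) x) ≤ Lf p x :=
          (Lc_le_L p _ _).trans (LG_res_le (good_gam p) _ x)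
        have h2 : 0 ≤ Lf p x := LG_nonneg (good_gam p) x
        linarith)
      (VV p H j τ σ)
      (by
        intro x
        unfold VV
        rw [if_pos he])
    exact ⟨r + 1, s', E', by omega, hp'⟩
  · cases σ with
    | nil => simp at he
    | cons n σ' =>
      have he' : Even σ'.length := by
        rw [List.length_cons, Nat.even_add_one] at he
        exact not_not.mp he
      have hmu1 : mu H j σ' < mu H j (n :: σ') := by
        show mu H j σ' < mu H j σ' + n + top (H n) + 1
        omega
      obtain ⟨r, s, E, hr, hp, hM⟩ := PE_pieces h.1 he' hτ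
      obtain ⟨s', E', hp', -⟩ := pieces_snoc hp hM (Set.Ici (mu H j σ')) Set.ordConnected_Ici
        (fun b hb => hb)
        (fun x => ‖pr (ev τ (H n)) x‖ +
          Lc p (code j (n :: σ')) (res (Set.Ici (mu H j (n :: σ'))) x))
        (fun x => add_nonneg (norm_nonneg _) (LG_nonneg (good_gamc p _) _))
        (by
          intro a x
          have h1 : Lc p (code j (n :: σ')) (a • res (Set.Ici (mu H j (n :: σ'))) x) =
              ‖a‖ * Lc p (code j (n :: σ')) (res (Set.Ici (mu H j (n :: σ'))) x) :=
            LG_smul (good_gamc p _) a _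
          rw [res_smul, pr_smul_right, norm_mul, h1]
          ring)
        (by
          intro x y
          have h1 : Lc p (code j (n :: σ')) (res (Set.Ici (mu H j (n :: σ'))) x +
              res (Set.Ici (mu H j (n :: σ'))) y) ≤
              Lc p (code j (n :: σ')) (res (Set.Ici (mu H j (n :: σ'))) x) +
              Lc p (code j (n :: σ')) (res (Set.Ici (mu H j (n :: σ'))) y) :=
            LG_add_le (good_gamc p _) _ _
          have h2 := norm_add_le (pr (ev τ (H n)) x) (pr (ev τ (H n)) y)
          rw [res_add, pr_add_right]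
          linarith)
        (by
          intro x
          rw [← pr_eq_res _ (ev τ (H n)) x, res_res]
          · congr 3
            rw [Set.inter_eq_left.mpr]
            exact Set.Ici_subset_Ici.mpr hmu1.le
          · intro i hi
            exact (val_supp h τ hi).1)
        (by
          intro x
          have h1 : Lc p (code j (n :: σ')) (res (Set.Ici (mu H j (n :: σ'))) x) ≤ Lf p x :=
            (Lc_le_L p _ _).trans (LG_res_le (good_gam p) _ x)
          have h2 := val_pr_L h hτ x
          linarith)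
        (VV p H j τ (n :: σ'))
        (by
          intro x
          unfold VV
          rw [if_neg he]
          rfl)
      refine ⟨r + 1, s', E', ?_, hp'⟩
      simp only [List.length_cons] at hlen
      omega

end Pool.Agent.HB
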