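import Pool.Agent.HB.S.PieceLem

/-!
# HB.S.S3: the special norm of one operation

PROOFS.  All for `Arc p j τ`.  By `VV_pieces` and `pc_bound` every element of the set defining `S3` is `≤ 8 √m Lc(lc j)(res E x)³
≤ 8 √m Lc(lc j)(x)³` (`m = m (lc j)`), so the set is bounded; it contains `VV [] x` (`Val [] `, `E = univ`).
`S3_tri`: for every `σ, E`: `VV σ (res E (x+y))^{1/3} ≤ VV σ (res E x)^{1/3} + VV σ (res E y)^{1/3} ≤ ...` (`pc_tri`), take the sup.
`S3_res`: `res E (res E' x) = res (E ∩ E') x`, intersections of order connected sets.  `S3_u3`: `pc_u3` for `res E (x k)`.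
`PE_le_S3`: `PE ≤ VV`, `E = univ`.
`S3_le_PE`: even `σ`: `VV σ (res E x) = PE(res E x) + Lc³ ≤ PE x + 16 L³ + L³` (`PE_pieces`, `pc_cut`); odd `σ = n::σ'`:
`≤ PE x σ' + 16 L³ + (2L)³`.
`S3_zero` (no arc needed): if `x` is supported in `[0, j)` then all terms are `0` (supports of the functionals are in
`[mu .., ∞) ⊆ [j, ∞)`), so `S3 = sSup {0} = 0`.
-/

open Finset

namespace Pool.Agent.HB

variable {p : Par} {H : ℕ → Pol} {j : ℕ} {τ : ℂ}

/-- supremum over the even nodes of the sums of cubes of the pair functionals -/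
noncomputable def ZZ3 (p : Par) (H : ℕ → Pol) (j : ℕ) (τ : ℂ) (x : CV) : ℝ :=
  sSup {r | ∃ σ : List ℕ, Val p H j σ ∧ Even σ.length ∧ r = PE H τ x σ}

private theorem cbrt3 {a : ℝ} (ha : 0 ≤ a) : (a ^ ((1 : ℝ) / 3)) ^ 3 = a := by
  rw [← Real.rpow_natCast, ← Real.rpow_mul ha]
  norm_num

private theorem cube3 {a : ℝ} (ha : 0 ≤ a) : (a ^ 3) ^ ((1 : ℝ) / 3) = a := by
  rw [← Real.rpow_natCast, ← Real.rpow_mul ha]
  norm_num

private theorem VV_bd (hτ : Arc p j τ) {σ : List ℕ} (h : Val p H j σ) (E : Set ℕ) (x : CV) :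
    VV p H j τ σ (res E x) ≤ 8 * √(p.m (lc j)) * Lc p (lc j) x ^ 3 := by
  obtain ⟨r, s, E', hr, hp⟩ := VV_pieces h hτ
  refine (pc_bound hp (lc j) hr (res E x)).trans ?_
  apply mul_le_mul_of_nonneg_left _ (by positivity)
  exact pow_le_pow_left₀ (LG_nonneg (good_gamc p _) _) (LG_res_le (good_gamc p _) E x) 3

private theorem VV_nn (hτ : Arc p j τ) {σ : List ℕ} (h : Val p H j σ) (x : CV) :
    0 ≤ VV p H j τ σ x := by
  obtain ⟨r, s, E', hr, hp⟩ := VV_pieces h hτ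
  exact pc_nonneg hp x

theorem VV_le_S3 (hτ : Arc p j τ) {σ : List ℕ} (h : Val p H j σ) {E : Set ℕ}
    (hE : E.OrdConnected) (x : CV) : VV p H j τ σ (res E x) ≤ S3 p H j τ x := by
  unfold S3
  apply le_csSup
  · refine ⟨8 * √(p.m (lc j)) * Lc p (lc j) x ^ 3, ?_⟩
    rintro r ⟨σ', E', h', hE', rfl⟩
    exact VV_bd hτ h' E' x
  · exact ⟨σ, E, h, hE, rfl⟩

theorem S3_le {x : CV} {A : ℝ} (h : ∀ (σ : List ℕ) (E : Set ℕ), Val p H j σ → E.OrdConnected →
    VV p H j τ σ (res E x) ≤ A) : S3 p H j τ x ≤ A := by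
  unfold S3
  apply csSup_le
  · exact ⟨_, [], Set.univ, trivial, Set.ordConnected_univ, rfl⟩
  · rintro r ⟨σ', E', h', hE', rfl⟩
    exact h σ' E' h' hE'

theorem S3_nonneg (hτ : Arc p j τ) (x : CV) : 0 ≤ S3 p H j τ x :=
  (VV_nn hτ (σ := []) trivial _).trans
    (VV_le_S3 (H := H) hτ (σ := []) trivial Set.ordConnected_univ x)

private theorem S3_smul_le (hτ : Arc p j τ) (a : ℂ) (x : CV) :
    S3 p H j τ (a • x) ≤ ‖a‖ ^ 3 * S3 p H j τ x := by
  apply S3_le
  intro σ E h hE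
  obtain ⟨r, s, E', hr, hp⟩ := VV_pieces h hτ
  rw [res_smul, pc_smul hp]
  exact mul_le_mul_of_nonneg_left (VV_le_S3 hτ h hE x) (by positivity)

theorem S3_smul (hτ : Arc p j τ) (a : ℂ) (x : CV) :
    S3 p H j τ (a • x) = ‖a‖ ^ 3 * S3 p H j τ x := by
  apply le_antisymm (S3_smul_le hτ a x)
  by_cases ha : a = 0
  · subst ha
    simpa using S3_nonneg (H := H) hτ ((0 : ℂ) • x)
  · have h := S3_smul_le (H := H) hτ a⁻¹ (a • x)
    rw [smul_smul, inv_mul_cancel₀ ha, one_smul, norm_inv] at h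
    have hn : 0 < ‖a‖ := norm_pos_iff.mpr ha
    have h2 := mul_le_mul_of_nonneg_left h (show 0 ≤ ‖a‖ ^ 3 by positivity)
    refine h2.trans (le_of_eq ?_)
    field_simp

theorem S3_tri (hτ : Arc p j τ) (x y : CV) :
    (S3 p H j τ (x + y)) ^ ((1 : ℝ) / 3) ≤
      (S3 p H j τ x) ^ ((1 : ℝ) / 3) + (S3 p H j τ y) ^ ((1 : ℝ) / 3) := by
  set A := (S3 p H j τ x) ^ ((1 : ℝ) / 3) with hA
  set B := (S3 p H j τ y) ^ ((1 : ℝ) / 3) with hB
  have hA0 : 0 ≤ A := Real.rpow_nonneg (S3_nonneg hτ x) _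
  have hB0 : 0 ≤ B := Real.rpow_nonneg (S3_nonneg hτ y) _
  have key : S3 p H j τ (x + y) ≤ (A + B) ^ 3 := by
    apply S3_le
    intro σ E h hE
    obtain ⟨r, s, E', hr, hp⟩ := VV_pieces h hτ
    rw [res_add]
    have h1 := pc_tri hp (res E x) (res E y)
    have h2 : (VV p H j τ σ (res E x)) ^ ((1 : ℝ) / 3) ≤ A :=
      Real.rpow_le_rpow (pc_nonneg hp _) (VV_le_S3 hτ h hE x) (by norm_num)
    have h3 : (VV p H j τ σ (res E y)) ^ ((1 : ℝ) / 3) ≤ B :=
      Real.rpow_le_rpow (pc_nonneg hp _) (VV_le_S3 hτ h hE y) (by norm_num)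
    rw [← cbrt3 (pc_nonneg hp (res E x + res E y))]
    exact pow_le_pow_left₀ (Real.rpow_nonneg (pc_nonneg hp _) _)
      (h1.trans (add_le_add h2 h3)) 3
  calc (S3 p H j τ (x + y)) ^ ((1 : ℝ) / 3) ≤ ((A + B) ^ 3) ^ ((1 : ℝ) / 3) :=
        Real.rpow_le_rpow (S3_nonneg hτ _) key (by norm_num)
    _ = A + B := cube3 (by positivity)

theorem S3_res (hτ : Arc p j τ) (E : Set ℕ) (hE : E.OrdConnected) (x : CV) :
    S3 p H j τ (res E x) ≤ S3 p H j τ x := by
  apply S3_le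
  intro σ E' h hE'
  rw [res_res]
  exact VV_le_S3 hτ h (hE'.inter hE) x

theorem S3_bound (hτ : Arc p j τ) (x : CV) :
    S3 p H j τ x ≤ 8 * √(p.m (lc j)) * Lc p (lc j) x ^ 3 := by
  apply S3_le
  intro σ E h _
  exact VV_bd hτ h E x

theorem S3_u3 (hτ : Arc p j τ) (n : ℕ) (x : ℕ → CV)
    (hx : ∀ k < n, ∀ l < n, k < l → Lt (x k) (x l)) :
    S3 p H j τ (∑ k ∈ range n, x k) ≤
      18 * ∑ k ∈ range n, S3 p H j τ (x k) + 72 * ∑ k ∈ range n, Lf p (x k) ^ 3 := by
  apply S3_le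
  intro σ E h hE
  obtain ⟨r, s, E', hr, hp⟩ := VV_pieces h hτ
  rw [res_sum]
  have hx' : ∀ k < n, ∀ l < n, k < l → Lt (res E (x k)) (res E (x l)) := by
    intro k hk l hl hkl i hi i' hi'
    exact hx k hk l hl hkl i ((res_support E (x k)).mp hi).2 i' ((res_support E (x l)).mp hi').2
  refine (pc_u3 hp n (fun k => res E (x k)) hx').trans ?_
  apply add_le_add
  · apply mul_le_mul_of_nonneg_left _ (by norm_num)
    exact sum_le_sum fun k _ => VV_le_S3 hτ h hE (x k)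
  · apply mul_le_mul_of_nonneg_left _ (by norm_num)
    exact sum_le_sum fun k _ => pow_le_pow_left₀ (LG_nonneg (good_gam p) _)
      (LG_res_le (good_gam p) E (x k)) 3

theorem PE_le_S3 (hτ : Arc p j τ) {σ : List ℕ} (h : Val p H j σ) (he : Even σ.length) (x : CV) :
    PE H τ x σ ≤ S3 p H j τ x := by
  have h1 := VV_le_S3 hτ h Set.ordConnected_univ x
  rw [res_univ] at h1
  unfold VV at h1
  rw [if_pos he] at h1
  have h2 : 0 ≤ Lc p (code j σ) (res (Set.Ici (mu H j σ)) x) := LG_nonneg (good_gamc p _) _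
  have h3 := pow_nonneg h2 3
  linarith

theorem PE_le_ZZ3 (hτ : Arc p j τ) {σ : List ℕ} (h : Val p H j σ) (he : Even σ.length) (x : CV) :
    PE H τ x σ ≤ ZZ3 p H j τ x := by
  unfold ZZ3
  apply le_csSup
  · refine ⟨S3 p H j τ x, ?_⟩
    rintro r ⟨σ', h', he', rfl⟩
    exact PE_le_S3 hτ h' he' x
  · exact ⟨σ, h, he, rfl⟩

theorem ZZ3_le_S3 (hτ : Arc p j τ) (x : CV) : ZZ3 p H j τ x ≤ S3 p H j τ x := by
  unfold ZZ3
  apply csSup_le
  · exact ⟨_, [], trivial, by simp, rfl⟩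
  · rintro r ⟨σ', h', he', rfl⟩
    exact PE_le_S3 hτ h' he' x

theorem S3_le_ZZ3 (hτ : Arc p j τ) (x : CV) :
    S3 p H j τ x ≤ 24 * Lf p x ^ 3 + ZZ3 p H j τ x := by
  have hL0 : 0 ≤ Lf p x := LG_nonneg (good_gam p) x
  have hL3 : 0 ≤ Lf p x ^ 3 := by positivity
  have hres : ∀ E : Set ℕ, Lf p (res E x) ≤ Lf p x := fun E => LG_res_le (good_gam p) E x
  have hresn : ∀ E : Set ℕ, 0 ≤ Lf p (res E x) := fun E => LG_nonneg (good_gam p) _
  have hcode : ∀ (σ : List ℕ) (E : Set ℕ),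
      Lc p (code j σ) (res (Set.Ici (mu H j σ)) (res E x)) ≤ Lf p x := by
    intro σ E
    rw [res_res]
    exact (Lc_le_L p _ _).trans (hres _)
  have hcode0 : ∀ (σ : List ℕ) (E : Set ℕ),
      0 ≤ Lc p (code j σ) (res (Set.Ici (mu H j σ)) (res E x)) := fun σ E =>
    LG_nonneg (good_gamc p _) _
  apply S3_le
  intro σ E h hE
  unfold VV
  split_ifs with he
  · obtain ⟨r, s, E', hr, hp, -⟩ := PE_pieces h he hτ
    have h1 := pc_cut hp E hE x
    have h2 := PE_le_ZZ3 hτ h he x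
    have h3 := pow_le_pow_left₀ (hcode0 σ E) (hcode σ E) 3
    linarith
  · cases σ with
    | nil => simp at he
    | cons n σ' =>
      have he' : Even σ'.length := by
        rw [List.length_cons, Nat.even_add_one] at he
        exact not_not.mp he
      obtain ⟨r, s, E', hr, hp, -⟩ := PE_pieces h.1 he' hτ
      have h1 := pc_cut hp E hE x
      have h2 := PE_le_ZZ3 hτ h.1 he' x
      have h4 : ‖pr (ev τ (H n)) (res E x)‖ ≤ Lf p x :=
        (h.2.2.2 τ hτ (res E x)).trans ((Lc_le_L p _ _).trans (hres E))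
      have h5 : (‖pr (ev τ (H n)) (res E x)‖ +
          Lc p (code j (n :: σ')) (res (Set.Ici (mu H j (n :: σ'))) (res E x))) ^ 3 ≤
          (2 * Lf p x) ^ 3 := by
        apply pow_le_pow_left₀ (add_nonneg (norm_nonneg _) (hcode0 _ E))
        have := hcode (n :: σ') E
        linarith
      simp only [List.tail_cons, List.headI_cons]
      have h6 : (2 * Lf p x) ^ 3 = 8 * Lf p x ^ 3 := by ring
      linarith

theorem le_mu (H : ℕ → Pol) (j : ℕ) : ∀ σ : List ℕ, j ≤ mu H j σ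
  | [] => le_rfl
  | n :: σ => by
    have := le_mu H j σ
    unfold mu
    omega

private theorem pr_zero {n : ℕ} {σ : List ℕ} (h : Val p H j (n :: σ)) (τ : ℂ) {x : CV}
    (hx : ∀ i ∈ x.support, i < j) : pr (ev τ (H n)) x = 0 := by
  apply pr_eq_zero
  intro i hi hi'
  have h1 := h.2.2.1 i (ev_support τ (H n) hi)
  have h2 := hx i hi'
  have h3 := le_mu H j σ
  omega

private theorem PE_zero' (τ : ℂ) {x : CV} (hx : ∀ i ∈ x.support, i < j) :
    ∀ σ : List ℕ, Val p H j σ → PE H τ x σ = 0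
  | [], _ => rfl
  | [_], _ => rfl
  | n :: m :: σ, h => by
    have h1 := PE_zero' τ hx σ h.1.1
    rw [PE, h1, pr_zero h τ hx, pr_zero h.1 τ hx]
    simp

theorem S3_zero (x : CV) (hx : ∀ i ∈ x.support, i < j) : S3 p H j τ x = 0 := by
  have key : ∀ (σ : List ℕ) (E : Set ℕ), Val p H j σ → VV p H j τ σ (res E x) = 0 := by
    intro σ E h
    have hx' : ∀ i ∈ (res E x).support, i < j := fun i hi => hx i ((res_support E x).mp hi).2
    have hz : res (Set.Ici (mu H j σ)) (res E x) = 0 := by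
      apply res_eq_zero
      intro i hi hi'
      have h1 := hx' i hi
      have h2 := le_mu H j σ
      have h3 : mu H j σ ≤ i := hi'
      omega
    have hz0 : Lc p (code j σ) (0 : CV) = 0 := LG_zero (good_gamc p _)
    unfold VV
    rw [hz, hz0]
    split_ifs with he
    · rw [PE_zero' τ hx' σ h]
      simp
    · cases σ with
      | nil => simp at he
      | cons n σ' =>
        simp only [List.tail_cons, List.headI_cons]
        rw [PE_zero' τ hx' σ' h.1, pr_zero h τ hx']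
        simp
  apply le_antisymm
  · apply S3_le
    intro σ E h _
    exact (key σ E h).le
  · unfold S3
    apply le_csSup
    · refine ⟨0, ?_⟩
      rintro r ⟨σ', E', h', -, rfl⟩
      exact (key σ' E' h').le
    · exact ⟨[], Set.univ, trivial, Set.ordConnected_univ, (key [] Set.univ trivial).symm⟩

end Pool.Agent.HB
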